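import Pool.Agent.Lib.MP_651af7_nt.Nx.Defs
import Pool.Agent.Lib.MP_8865d3_nt.Sa.VI

/-! Differentials at a closed point, and the inequality for valuations. -/

namespace Pool.Agent.Lib.MP_651af7_nt.Ny

open MvPolynomial IsLocalRing Pool.Agent.Lib.MP_651af7_nt Bx
open Pool.Agent.Lib.MP_8865d3_nt Lr
open scoped WithZero

variable {k K E κ μ β : Type} [Field k] [CharZero k] [Field K] [Algebra k K] [Field E]
  [Algebra k E] {g : ℕ}

theorem exists_sep {R : Type} [CommRing R] [Algebra k R] [Algebra.FiniteType k R] (𝔪 : Ideal R)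
    [𝔪.IsMaximal] (u : R) : ∃ p : Polynomial k, Polynomial.aeval u p ∈ 𝔪 ∧
      Polynomial.aeval u p.derivative ∉ 𝔪 := by
  let _ := Ideal.Quotient.field 𝔪
  have : Module.Finite k (R ⧸ 𝔪) := finite_of_finite_type_of_isJacobsonRing k _
  have h : ∀ p : Polynomial k, Polynomial.aeval u p ∈ 𝔪 ↔
      Polynomial.aeval (Ideal.Quotient.mkₐ k 𝔪 u) p = 0 := fun p => by
    rw [Polynomial.aeval_algHom_apply, Ideal.Quotient.mkₐ_eq_mk, Ideal.Quotient.eq_zero_iff_mem]
  refine ⟨minpoly k (Ideal.Quotient.mkₐ k 𝔪 u), (h _).2 (minpoly.aeval _ _), mt (h _).1 ?_⟩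
  exact (Algebra.IsSeparable.isSeparable k _).aeval_derivative_ne_zero (minpoly.aeval _ _)

/-- The differentials of the generators of the maximal ideal span all differentials. -/
theorem dif_mem [Finite μ] {η : μ → K} {O : LocalSubring K} (hO : Loc k η O)
    {z : Fin g → O.toSubring} (hz : Ideal.span (Set.range z) = maximalIdeal O.toSubring) {u : K}
    (hu : u ∈ O.toSubring) :
    dif k u ∈ Submodule.span O.toSubring (Set.range fun a => dif k (z a : K)) := by
  obtain ⟨j, -, 𝔪, hm, rfl⟩ := hO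
  let R := Algebra.adjoin k (Set.range fun i => η i / η j)
  let O := LocalSubring.ofPrime _ 𝔪
  let M := Submodule.span O.toSubring (Set.range fun i => dif k (η i / η j))
  let N := Submodule.span O.toSubring (Set.range fun a => dif k (z a : K))
  have hRO : ∀ x ∈ R, x ∈ O.toSubring := fun x hx => LocalSubring.le_ofPrime _ 𝔪 hx
  have hl : ∀ x y : K, dif k (x * y) = x • dif k y + y • dif k x := fun x y =>
    Derivation.leibniz _ x y
  have h1 : ∀ x ∈ R, dif k x ∈ M := fun x hx => by
    induction hx using Algebra.adjoin_induction with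
    | mem x hx =>
      obtain ⟨i, rfl⟩ := hx
      exact Submodule.subset_span ⟨i, rfl⟩
    | algebraMap c => rw [dif, Derivation.map_algebraMap]; exact zero_mem _
    | add x y _ _ hx hy => rw [dif, map_add]; exact add_mem hx hy
    | mul x y h h' hx hy =>
      rw [hl]
      exact add_mem (M.smul_mem ⟨x, hRO x h⟩ hy) (M.smul_mem ⟨y, hRO y h'⟩ hx)
  have hun : ∀ (P : Submodule O.toSubring Ω[K⁄k]) (s : R.toSubring), s ∉ 𝔪 → ∀ w,
      (s : K) • w ∈ P → w ∈ P := fun P s hs w hw =>
    (P.smul_mem_iff_of_isUnit ((IsLocalization.AtPrime.isUnit_to_map_iff O.toSubring 𝔪 s).2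
      hs)).1 hw
  have h2 : ∀ x ∈ O.toSubring, dif k x ∈ M := fun x hx => by
    obtain ⟨⟨r, s⟩, h3⟩ := IsLocalization.surj 𝔪.primeCompl (⟨x, hx⟩ : O.toSubring)
    have h4 : x * s.1.1 = r.1 := congrArg Subtype.val h3
    have h5 := h1 _ r.2
    rw [← h4, hl] at h5
    exact hun M s.1 s.2 _ ((add_mem_cancel_left (M.smul_mem ⟨x, hx⟩ (h1 _ s.1.2))).1 h5)
  have h3 : ∀ w ∈ maximalIdeal O.toSubring, dif k (w : K) ∈ N ⊔ maximalIdeal O.toSubring • M :=
    fun w hw => by
      rw [← hz] at hw
      induction hw using Submodule.span_induction with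
      | mem x hx =>
        obtain ⟨a, rfl⟩ := hx
        exact Submodule.mem_sup_left (Submodule.subset_span ⟨a, rfl⟩)
      | zero => rw [dif, ZeroMemClass.coe_zero, map_zero]; exact zero_mem _
      | add x y _ _ hx hy => rw [dif, Subring.coe_add, map_add]; exact add_mem hx hy
      | smul a x h hx =>
        rw [smul_eq_mul, Subring.coe_mul, hl]
        exact add_mem (Submodule.smul_mem _ a hx)
          (Submodule.mem_sup_right (Submodule.smul_mem_smul (hz ▸ h) (h2 _ a.2)))
  have : Algebra.FiniteType k R := Algebra.FiniteType.adjoin_of_finite (Set.finite_range _)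
  refine Submodule.le_of_le_smul_of_le_jacobson_bot (N' := M)
    (Submodule.fg_span (Set.finite_range _)) (maximalIdeal_le_jacobson _)
    (Submodule.span_le.2 ?_) (h2 u hu)
  rintro _ ⟨i, rfl⟩
  let x : R := ⟨η i / η j, Algebra.subset_adjoin ⟨i, rfl⟩⟩
  obtain ⟨p, p1, p2⟩ := @exists_sep k _ _ R _ _ _ 𝔪 hm x
  have h4 := h3 _ ((IsLocalization.AtPrime.to_map_mem_maximal_iff O.toSubring 𝔪 _).2 p1)
  refine hun _ _ p2 _ ?_
  have e : ∀ q : Polynomial k, ((Polynomial.aeval x q : R) : K) =
      Polynomial.aeval (η i / η j) q := fun q => (Polynomial.aeval_algHom_apply R.val x q).symm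
  change dif k ((Polynomial.aeval x p : R) : K) ∈ _ at h4
  change ((Polynomial.aeval x p.derivative : R) : K) • _ ∈ _
  rwa [e, dif, Derivation.map_aeval, ← e] at h4

theorem snc_vi [Finite κ] [Finite β] {I : Ideal (MvPolynomial κ k)}
    {D : β → MvPolynomial κ k} {ξ : κ → K} (hr : Nx.Snc I g D ξ) :
    Sa.VI I g D fun _ : Unit => 1 := by
  intro _ E _ _ ξ' ker' v hv _ θ hθ S
  obtain ⟨j, h0, hj⟩ := log_gen hr.ne hr.ker ker' hr.top
  obtain ⟨O, hO, h1⟩ := log_centre (v.comap j.toRingHom)
    (fun c => (congrArg v (j.commutes c)).trans_le (hv c)) hr.ne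
  replace h1 : ∀ x ∈ O.toSubring, v (j x) ≤ 1 := h1
  obtain ⟨i, z, m, hn, hc⟩ := hr.nc O hO
  have h2 : ∀ p : MvPolynomial κ k, j (aeval (fun a => ξ a / ξ i) p) =
      aeval (fun a => ξ' a / ξ' i) p := fun p => by
    rw [comp_aeval_apply]
    simp only [hj]
  have h3 : ∀ s, v (ξ' s / ξ' i) ≤ 1 := fun s => hj s i ▸ h1 _ (hn.mem s)
  obtain ⟨l, hl⟩ := Finite.exists_max fun l => v (aeval (fun a => ξ' a / ξ' i) (D l))
  have h4 : ∀ x ∈ Submodule.span O.toSubring
      (Set.range fun l => aeval (fun a => ξ a / ξ i) (D l)),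
      v (j x) ≤ v (aeval (fun a => ξ' a / ξ' i) (D l)) := fun x hx => by
    induction hx using Submodule.span_induction with
    | mem x hx =>
      obtain ⟨l', rfl⟩ := hx
      rw [h2]
      exact hl l'
    | zero => simp
    | add x y _ _ hx hy => rw [map_add]; exact v.map_add_le hx hy
    | smul a x _ hx =>
      change v (j (a * x)) ≤ _
      rw [map_mul, map_mul]
      exact (mul_le_of_le_one_left' (h1 _ a.2)).trans hx
  refine ⟨i, l, h0 i hn.ne, fun s => ?_, ?_⟩
  · have h5 := h3 s
    rwa [map_div₀, div_le_one₀ ((v.pos_iff).2 (h0 i hn.ne))] at h5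
  refine (val_minors_le v hθ h3 (z := fun a => j (z a)) (e := fun _ => 0)
    (fun T => ?_) S).trans (le_trans ?_ (h4 _ (hn.mon ▸ Submodule.mem_span_singleton_self _)))
  · choose c hc using fun s => (Submodule.mem_span_range_iff_exists_fun _).1
      (dif_mem hO hn.par (hn.mem s))
    let : Algebra K E := j.toRingHom.toAlgebra
    have : IsScalarTower k K E := .of_algebraMap_eq fun c => (j.commutes c).symm
    have h5 : ∀ a (u : K), ((θ a).compAlgebraMap K).liftKaehlerDifferential (dif k u) =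
        θ a (j u) := fun a u => Derivation.liftKaehlerDifferential_comp_D _ _
    refine ⟨(Matrix.of fun b s => j (c (T s) b)).det, ?_, ?_⟩
    · simpa using val_det_le v (M := Matrix.of fun b s => j (c (T s) b)) (c := fun _ => 1)
        fun b s => h1 _ (c (T s) b).2
    · simp only [map_one, one_mul, pow_zero, Finset.prod_const_one, mul_one]
      rw [mul_comm, ← Matrix.det_mul]
      congr 1
      ext a s
      rw [Matrix.of_apply, ← hj, ← h5, ← hc, map_sum, Matrix.mul_apply]
      refine Finset.sum_congr rfl fun b _ => ?_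
      refine (LinearMap.map_smul ((θ a).compAlgebraMap K).liftKaehlerDifferential
        (c (T s) b : K) _).trans ?_
      rw [h5]
      exact mul_comm (j (c (T s) b)) _
  · simp only [map_prod, map_pow]
    exact Finset.prod_le_prod' fun a _ => pow_le_pow_right_of_le_one' (h1 _ (z a).2) (hc a)

end Pool.Agent.Lib.MP_651af7_nt.Ny
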